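import Pool.Agent.H222.KM.Ind

/-!
From the moments with all weights to the strong type inequality, without a logarithm.
-/

open MeasureTheory Set Filter Topology ENNReal NNReal Metric

namespace Pool.Agent.H222.KM

open Pool.Agent.H222.KP Pool.Agent.H742R2.Kk

variable {n : ℕ}

theorem strong_of_all {p q : ℝ} (hpq : p.HolderConjugate q) {D : ℕ} {M : ℝ≥0}
    (h : ∀ a : sphere (0 : E n) 1 → E n, Measurable a → (∀ e, a e ∈ cube n (1 / 2)) →
      ∀ w : sphere (0 : E n) 1 → ℝ, MemLp w (ENNReal.ofReal q) (surf n) →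
      ∃ g : E n → ℝ, MemLp g (ENNReal.ofReal q) (lam n) ∧
        eLpNorm g (ENNReal.ofReal q) (lam n) ≤ M * eLpNorm w (ENNReal.ofReal q) (surf n) ∧
        ∀ P : MvPolynomial (Fin n) ℝ, P.totalDegree ≤ D →
          ∫ y in cube n 2, ev P y * g y = ∫ e, w e * seg P (a e) e ∂(surf n))
    {P : MvPolynomial (Fin n) ℝ} (hP : P.totalDegree ≤ D) (hP0 : ∀ x, 0 ≤ ev P x) :
    ∫⁻ e, smax P (e : E n) ^ p ∂(surf n) ≤ (2 * M) ^ p * ∫⁻ y in cube n 2, ‖ev P y‖ₑ ^ p := by
  have hp0 : 0 < p := hpq.pos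
  have hp1 : 1 < p := hpq.lt
  have hq0 : 0 < q := hpq.symm.pos
  have hqn : ENNReal.ofReal q ≠ 0 := (ENNReal.ofReal_pos.2 hq0).ne'
  obtain ⟨a, ham, hac, hsel⟩ := select n P (c := 1 / 2) (by norm_num) (by norm_num)
  have ha' : Measurable fun e : sphere (0 : E n) 1 => a e := ham.comp measurable_subtype_coe
  have hac' : ∀ e : sphere (0 : E n) 1, a e ∈ cube n (1 / 2) := fun e i => hac e i
  obtain ⟨L, hL⟩ := smax_fin P
  have hsm := seg_meas P ha'
  set u : sphere (0 : E n) 1 → ℝ := fun e => seg P (a e) e with hu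
  have hu0 : ∀ e, 0 ≤ u e := fun e => integral_nonneg fun s => hP0 _
  have huL : ∀ e, u e ≤ L := fun e => by
    have h1 := seg_bdd hL hac' e
    rwa [Real.norm_of_nonneg (hu0 e)] at h1
  set w : sphere (0 : E n) 1 → ℝ := fun e => u e ^ (p - 1) with hw
  have hwm : Measurable w := hsm.pow_const _
  have hw0 : ∀ e, 0 ≤ w e := fun e => Real.rpow_nonneg (hu0 e) _
  have hwb : ∀ e, ‖w e‖ ≤ (L : ℝ) ^ (p - 1) := fun e => by
    rw [Real.norm_of_nonneg (hw0 e)]
    exact Real.rpow_le_rpow (hu0 e) (huL e) (by linarith)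
  have hwLp : MemLp w (ENNReal.ofReal q) (surf n) :=
    MemLp.of_bound hwm.aestronglyMeasurable _ (Eventually.of_forall hwb)
  obtain ⟨g, hg1, hg2, hg3⟩ := h (fun e => a e) ha' hac' w hwLp
  set X : ℝ≥0∞ := ∫⁻ y in cube n 2, ‖ev P y‖ₑ ^ p with hX
  set Γ : ℝ≥0∞ := ∫⁻ e, ENNReal.ofReal (u e) ^ p ∂(surf n) with hΓ
  have hwu : ∀ e, w e * u e = u e ^ p := fun e => by
    rcases eq_or_lt_of_le (hu0 e) with h0 | h0
    · rw [← h0, mul_zero, Real.zero_rpow hp0.ne']
    · show u e ^ (p - 1) * u e = u e ^ p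
      rw [Real.rpow_sub_one h0.ne', div_mul_cancel₀ _ h0.ne']
  have hint : Integrable (fun e => w e * u e) (surf n) := wseg_int hpq.symm.lt.le hwLp P ha' hac'
  have hΓt : Γ ≠ ∞ := by
    have h1 : Γ ≤ ∫⁻ _e, (L : ℝ≥0∞) ^ p ∂(surf n) := by
      refine lintegral_mono fun e => ?_
      refine ENNReal.rpow_le_rpow ?_ hp0.le
      rw [← ENNReal.ofReal_coe_nnreal]
      exact ENNReal.ofReal_le_ofReal (huL e)
    refine (h1.trans_lt ?_).ne
    rw [lintegral_const]
    exact ENNReal.mul_lt_top (ENNReal.rpow_lt_top_of_nonneg hp0.le ENNReal.coe_ne_top)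
      (measure_lt_top _ _)
  have hwq : eLpNorm w (ENNReal.ofReal q) (surf n) = Γ ^ (1 / q) := by
    rw [eLpNorm_eq_lintegral_rpow_enorm_toReal hqn ENNReal.ofReal_ne_top,
      ENNReal.toReal_ofReal hq0.le]
    congr 1
    refine lintegral_congr fun e => ?_
    rw [← ofReal_norm, Real.norm_of_nonneg (hw0 e), ENNReal.ofReal_rpow_of_nonneg (hw0 e) hq0.le,
      ENNReal.ofReal_rpow_of_nonneg (hu0 e) hp0.le]
    congr 1
    show (u e ^ (p - 1)) ^ q = u e ^ p
    rw [← Real.rpow_mul (hu0 e), hpq.sub_one_mul_conj]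
  have h1 : Γ ≤ X ^ (1 / p) * (M * Γ ^ (1 / q)) := by
    calc Γ = ∫⁻ e, ENNReal.ofReal (w e * u e) ∂(surf n) := by
          refine lintegral_congr fun e => ?_
          rw [hwu, ENNReal.ofReal_rpow_of_nonneg (hu0 e) hp0.le]
      _ = ENNReal.ofReal (∫ e, w e * u e ∂(surf n)) :=
          (ofReal_integral_eq_lintegral_ofReal hint
            (Eventually.of_forall fun e => mul_nonneg (hw0 e) (hu0 e))).symm
      _ = ENNReal.ofReal (∫ y in cube n 2, ev P y * g y) := by rw [hg3 P hP]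
      _ ≤ ‖∫ y in cube n 2, ev P y * g y‖ₑ := by
          rw [← ofReal_norm]
          exact ENNReal.ofReal_le_ofReal (le_abs_self _)
      _ ≤ ∫⁻ y in cube n 2, ‖ev P y‖ₑ * ‖g y‖ₑ := by
          refine (enorm_integral_le_lintegral_enorm _).trans (le_of_eq ?_)
          simp_rw [enorm_mul]
      _ ≤ X ^ (1 / p) * (∫⁻ y in cube n 2, ‖g y‖ₑ ^ q) ^ (1 / q) :=
          ENNReal.lintegral_mul_le_Lp_mul_Lq (lam n) hpq (ev_cont P).measurable.enorm.aemeasurable
            hg1.1.enorm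
      _ ≤ _ := by
          gcongr
          rw [← hwq]
          refine le_trans (le_of_eq ?_) hg2
          rw [eLpNorm_eq_lintegral_rpow_enorm_toReal hqn ENNReal.ofReal_ne_top,
            ENNReal.toReal_ofReal hq0.le]
  have hsum : 1 / p + 1 / q = 1 := by
    have := hpq.inv_add_inv_eq_one
    simpa [one_div] using this
  have h2 : Γ ≤ M ^ p * X := by
    rcases eq_or_ne Γ 0 with h0 | h0
    · rw [h0]; exact zero_le
    have hxq0 : Γ ^ (1 / q) ≠ 0 := (ENNReal.rpow_pos (pos_iff_ne_zero.2 h0) hΓt).ne'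
    have hxqt : Γ ^ (1 / q) ≠ ∞ := ENNReal.rpow_ne_top_of_nonneg (by positivity) hΓt
    have h3 : Γ = Γ ^ (1 / p) * Γ ^ (1 / q) := by
      rw [← ENNReal.rpow_add _ _ h0 hΓt, hsum, ENNReal.rpow_one]
    have h4 : Γ ^ (1 / p) ≤ X ^ (1 / p) * M := by
      have h5 : Γ ^ (1 / p) * Γ ^ (1 / q) ≤ (X ^ (1 / p) * M) * Γ ^ (1 / q) := by
        rw [← h3]
        exact h1.trans (le_of_eq (by ring))
      exact (ENNReal.mul_le_mul_iff_left hxq0 hxqt).1 h5
    have h6 := ENNReal.rpow_le_rpow h4 hp0.le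
    rw [ENNReal.mul_rpow_of_nonneg _ _ hp0.le, ← ENNReal.rpow_mul, ← ENNReal.rpow_mul,
      one_div_mul_cancel hp0.ne', ENNReal.rpow_one, ENNReal.rpow_one] at h6
    exact h6.trans (le_of_eq (mul_comm _ _))
  have e2 : (2 : ℝ≥0∞) * ENNReal.ofReal (1 / 2) = 1 := by
    rw [← ENNReal.ofReal_ofNat 2, ← ENNReal.ofReal_mul (by norm_num)]
    norm_num
  calc ∫⁻ e, smax P (e : E n) ^ p ∂(surf n)
      ≤ ∫⁻ e, 2 ^ p * ENNReal.ofReal (u e) ^ p ∂(surf n) := by
        refine lintegral_mono fun e => ?_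
        rw [← ENNReal.mul_rpow_of_nonneg _ _ hp0.le]
        refine ENNReal.rpow_le_rpow ?_ hp0.le
        have h7 : ENNReal.ofReal (1 / 2) * smax P (e : E n) ≤ ENNReal.ofReal (u e) := by
          rw [hu]
          show _ ≤ ENNReal.ofReal (seg P (a e) e)
          rw [← seg_nonneg hP0]
          exact hsel e
        calc smax P (e : E n) = 2 * (ENNReal.ofReal (1 / 2) * smax P (e : E n)) := by
              rw [← mul_assoc, e2, one_mul]
          _ ≤ _ := by gcongr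
    _ = 2 ^ p * Γ := by
        rw [lintegral_const_mul' _ _ (ENNReal.rpow_ne_top_of_nonneg hp0.le (by norm_num))]
    _ ≤ 2 ^ p * (M ^ p * X) := by gcongr
    _ = _ := by
        rw [ENNReal.mul_rpow_of_nonneg _ _ hp0.le]
        ring

end Pool.Agent.H222.KM
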