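import Pool.Agent.H222.KM.Mom

/-!
From the moments of families of unit segments to the inequality for polynomials.
-/

open MeasureTheory Set Filter Topology ENNReal NNReal Metric

namespace Pool.Agent.H222.KM

open Pool.Agent.H222.KP Pool.Agent.H742R2.Kk

variable {n : ℕ}

theorem seg_nonneg {P : MvPolynomial (Fin n) ℝ} (hP : ∀ x, 0 ≤ ev P x) (b e : E n) :
    ∫⁻ s in Icc (-(1 / 2) : ℝ) (1 / 2), ‖ev P (b + s • e)‖ₑ = ENNReal.ofReal (seg P b e) := by
  unfold seg
  rw [ofReal_integral_eq_lintegral_ofReal (ev_int P b e) (Eventually.of_forall fun s => hP _)]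
  refine lintegral_congr fun s => ?_
  rw [← ofReal_norm, Real.norm_of_nonneg (hP _)]

/-- the weak type inequality from the moments with indicator weights -/
theorem weak_of_ind {p q : ℝ} (hpq : p.HolderConjugate q) {D : ℕ} {M : ℝ≥0∞}
    (h : ∀ a : sphere (0 : E n) 1 → E n, Measurable a → (∀ e, a e ∈ cube n (1 / 2)) →
      ∀ Ω : Set (sphere (0 : E n) 1), MeasurableSet Ω →
      ∃ g : E n → ℝ, MemLp g (ENNReal.ofReal q) (lam n) ∧
        eLpNorm g (ENNReal.ofReal q) (lam n) ≤ M * surf n Ω ^ (1 / q) ∧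
        ∀ P : MvPolynomial (Fin n) ℝ, P.totalDegree ≤ D →
          ∫ y in cube n 2, ev P y * g y = ∫ e in Ω, seg P (a e) e ∂(surf n))
    {P : MvPolynomial (Fin n) ℝ} (hP : P.totalDegree ≤ D) (hP0 : ∀ x, 0 ≤ ev P x) {l : ℝ}
    (hl : 0 < l) :
    ENNReal.ofReal (l ^ p) * surf n {e | ENNReal.ofReal l < smax P (e : E n)} ≤
      (2 * M) ^ p * ∫⁻ y in cube n 2, ‖ev P y‖ₑ ^ p := by
  have hp0 : 0 < p := hpq.pos
  have hq0 : 0 < q := hpq.symm.pos
  have hpn : ENNReal.ofReal p ≠ 0 := (ENNReal.ofReal_pos.2 hp0).ne'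
  have hqn : ENNReal.ofReal q ≠ 0 := (ENNReal.ofReal_pos.2 hq0).ne'
  obtain ⟨a, ham, hac, hsel⟩ := select n P (c := 1 / 2) (by norm_num) (by norm_num)
  set Ω : Set (sphere (0 : E n) 1) := {e | ENNReal.ofReal l < smax P (e : E n)} with hΩ
  have hΩm : MeasurableSet Ω :=
    measurableSet_lt measurable_const ((smax_meas' P).comp measurable_subtype_coe)
  have ha' : Measurable fun e : sphere (0 : E n) 1 => a e := ham.comp measurable_subtype_coe
  have hac' : ∀ e : sphere (0 : E n) 1, a e ∈ cube n (1 / 2) := fun e i => hac e i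
  obtain ⟨g, hg1, hg2, hg3⟩ := h (fun e => a e) ha' hac' Ω hΩm
  obtain ⟨L, hL⟩ := smax_fin P
  have hsm := seg_meas P ha'
  have hseg0 : ∀ e : sphere (0 : E n) 1, 0 ≤ seg P (a e) e := fun e => integral_nonneg fun s => hP0 _
  have hint : Integrable (fun e : sphere (0 : E n) 1 => seg P (a e) e) (surf n) :=
    Integrable.of_bound hsm.aestronglyMeasurable L (Eventually.of_forall fun e => seg_bdd hL hac' e)
  set x : ℝ≥0∞ := surf n Ω with hx
  have hxt : x ≠ ∞ := measure_ne_top _ _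
  set X : ℝ≥0∞ := ∫⁻ y in cube n 2, ‖ev P y‖ₑ ^ p with hX
  -- the main chain
  have h1 : ENNReal.ofReal (l / 2) * x ≤ X ^ (1 / p) * (M * x ^ (1 / q)) := by
    calc ENNReal.ofReal (l / 2) * x = ∫⁻ _e in Ω, ENNReal.ofReal (l / 2) ∂(surf n) := by
          rw [setLIntegral_const]
      _ ≤ ∫⁻ e in Ω, ENNReal.ofReal (seg P (a e) e) ∂(surf n) := by
          refine setLIntegral_mono' hΩm fun e he => ?_
          rw [← seg_nonneg hP0]
          refine le_trans ?_ (hsel e)
          have h2 : ENNReal.ofReal l ≤ smax P (e : E n) := le_of_lt he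
          calc ENNReal.ofReal (l / 2) = ENNReal.ofReal (1 / 2) * ENNReal.ofReal l := by
                rw [← ENNReal.ofReal_mul (by norm_num)]
                congr 1
                ring
            _ ≤ ENNReal.ofReal (1 / 2) * smax P (e : E n) := by gcongr
            _ = _ := rfl
      _ = ENNReal.ofReal (∫ e in Ω, seg P (a e) e ∂(surf n)) := by
          rw [ofReal_integral_eq_lintegral_ofReal hint.restrict
            (Eventually.of_forall fun e => hseg0 e)]
      _ = ENNReal.ofReal (∫ y in cube n 2, ev P y * g y) := by rw [hg3 P hP]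
      _ ≤ ‖∫ y in cube n 2, ev P y * g y‖ₑ := by
          rw [← ofReal_norm]
          exact ENNReal.ofReal_le_ofReal (le_abs_self _)
      _ ≤ ∫⁻ y in cube n 2, ‖ev P y‖ₑ * ‖g y‖ₑ := by
          refine (enorm_integral_le_lintegral_enorm _).trans (le_of_eq ?_)
          simp_rw [enorm_mul]
      _ ≤ X ^ (1 / p) * (∫⁻ y in cube n 2, ‖g y‖ₑ ^ q) ^ (1 / q) :=
          ENNReal.lintegral_mul_le_Lp_mul_Lq (lam n) hpq (ev_cont P).measurable.enorm.aemeasurable
            hg1.1.enorm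
      _ ≤ _ := by
          gcongr
          refine le_trans (le_of_eq ?_) hg2
          rw [eLpNorm_eq_lintegral_rpow_enorm_toReal hqn ENNReal.ofReal_ne_top,
            ENNReal.toReal_ofReal hq0.le]
  rcases eq_or_ne x 0 with hx0 | hx0
  · rw [hx0, mul_zero]
    exact zero_le
  have hxq0 : x ^ (1 / q) ≠ 0 := (ENNReal.rpow_pos (pos_iff_ne_zero.2 hx0) hxt).ne'
  have hxqt : x ^ (1 / q) ≠ ∞ := ENNReal.rpow_ne_top_of_nonneg (by positivity) hxt
  have hsum : 1 / p + 1 / q = 1 := by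
    have := hpq.inv_add_inv_eq_one
    simpa [one_div] using this
  have h3 : x = x ^ (1 / p) * x ^ (1 / q) := by
    rw [← ENNReal.rpow_add _ _ hx0 hxt, hsum, ENNReal.rpow_one]
  have h4 : ENNReal.ofReal (l / 2) * x ^ (1 / p) ≤ X ^ (1 / p) * M := by
    have h5 : (ENNReal.ofReal (l / 2) * x ^ (1 / p)) * x ^ (1 / q) ≤
        (X ^ (1 / p) * M) * x ^ (1 / q) := by
      calc (ENNReal.ofReal (l / 2) * x ^ (1 / p)) * x ^ (1 / q) = ENNReal.ofReal (l / 2) * x := by
            rw [mul_assoc, ← h3]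
        _ ≤ _ := h1.trans (le_of_eq (by ring))
    exact (ENNReal.mul_le_mul_iff_left hxq0 hxqt).1 h5
  have h6 := ENNReal.rpow_le_rpow h4 hp0.le
  rw [ENNReal.mul_rpow_of_nonneg _ _ hp0.le, ENNReal.mul_rpow_of_nonneg _ _ hp0.le,
    ← ENNReal.rpow_mul, ← ENNReal.rpow_mul, one_div_mul_cancel hp0.ne', ENNReal.rpow_one,
    ENNReal.rpow_one] at h6
  have h7 : ENNReal.ofReal (l ^ p) = 2 ^ p * ENNReal.ofReal (l / 2) ^ p := by
    rw [← ENNReal.mul_rpow_of_nonneg _ _ hp0.le, ← ENNReal.ofReal_ofNat 2,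
      ← ENNReal.ofReal_mul (by norm_num), mul_div_cancel₀ _ (by norm_num : (2 : ℝ) ≠ 0),
      ENNReal.ofReal_rpow_of_nonneg hl.le hp0.le]
  rw [h7, ENNReal.mul_rpow_of_nonneg _ _ hp0.le]
  calc 2 ^ p * ENNReal.ofReal (l / 2) ^ p * x = 2 ^ p * (ENNReal.ofReal (l / 2) ^ p * x) := by ring
    _ ≤ 2 ^ p * (X * M ^ p) := by gcongr
    _ = _ := by ring

/-- the largest value of the segment maximal function -/
theorem smax_sup {p q : ℝ} (hpq : p.HolderConjugate q) {D : ℕ} (hD : 1 ≤ D)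
    {P : MvPolynomial (Fin n) ℝ} (hP : P.totalDegree ≤ D) {e : E n} (he : ‖e‖ = 1) :
    smax P e ≤ ENNReal.ofReal ((4 * D) ^ n) * (volume (cube n 2) ^ (1 / q) *
      (∫⁻ y in cube n 2, ‖ev P y‖ₑ ^ p) ^ (1 / p)) := by
  have h1 : ∫⁻ y in cube n 2, ‖ev P y‖ₑ ≤ volume (cube n 2) ^ (1 / q) *
      (∫⁻ y in cube n 2, ‖ev P y‖ₑ ^ p) ^ (1 / p) := by
    have h2 := ENNReal.lintegral_mul_le_Lp_mul_Lq (lam n) hpq.symm (f := fun _ => 1)
      (g := fun y => ‖ev P y‖ₑ) aemeasurable_const (ev_cont P).measurable.enorm.aemeasurable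
    simpa using h2
  have hD1 : (1 : ℝ) ≤ D := by exact_mod_cast hD
  refine iSup₂_le fun a ha => ?_
  calc ∫⁻ s in Icc (-(1 / 2) : ℝ) (1 / 2), ‖ev P (a + s • e)‖ₑ
      ≤ ∫⁻ _s in Icc (-(1 / 2) : ℝ) (1 / 2), ENNReal.ofReal ((4 * D) ^ n) *
          ∫⁻ y in cube n 2, ‖ev P y‖ₑ := by
        refine setLIntegral_mono' measurableSet_Icc fun s hs => ?_
        refine (nikn nik1 n D P hP _ (seg_cube ha he hs)).trans ?_
        refine mul_le_mul' (ENNReal.ofReal_le_ofReal ?_) le_rfl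
        refine pow_le_pow_left₀ (by positivity) ?_ n
        linarith
    _ = ENNReal.ofReal ((4 * D) ^ n) * ∫⁻ y in cube n 2, ‖ev P y‖ₑ := by
        rw [setLIntegral_const, Real.volume_Icc]
        have h2 : ENNReal.ofReal (1 / 2 - -(1 / 2)) = 1 := by norm_num
        rw [h2, mul_one]
    _ ≤ _ := by gcongr

/-- the strong type inequality with a logarithm -/
theorem strong_of_weak {p q : ℝ} (hpq : p.HolderConjugate q) : ∃ C : ℝ≥0,
    ∀ D : ℕ, 1 ≤ D → ∀ K : ℝ≥0, ∀ P : MvPolynomial (Fin n) ℝ, P.totalDegree ≤ D →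
    (∀ l : ℝ, 0 < l → ENNReal.ofReal (l ^ p) * surf n {e | ENNReal.ofReal l < smax P (e : E n)} ≤
      K * ∫⁻ y in cube n 2, ‖ev P y‖ₑ ^ p) →
    ∫⁻ e, smax P (e : E n) ^ p ∂(surf n) ≤
      C * (1 + K) * ENNReal.ofReal (1 + Real.log D) * ∫⁻ y in cube n 2, ‖ev P y‖ₑ ^ p := by
  have hp0 : 0 < p := hpq.pos
  have hp1 : 1 ≤ p := hpq.lt.le
  set v : ℝ := ((volume (cube n 2)) ^ (1 / q)).toReal with hv
  have hvt : volume (cube n 2) ^ (1 / q) ≠ ∞ :=
    ENNReal.rpow_ne_top_of_nonneg (by have := hpq.symm.pos; positivity) cube_fin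
  have hv0 : 0 ≤ v := ENNReal.toReal_nonneg
  set G : ℝ := 4 ^ n * (v + 1) with hG
  have hG1 : 1 ≤ G := by
    have h1 : (1 : ℝ) ≤ 4 ^ n := one_le_pow₀ (by norm_num)
    nlinarith
  set σ : ℝ := (surf n univ).toReal with hσ
  have hσt : surf n univ ≠ ∞ := measure_ne_top _ _
  refine ⟨Real.toNNReal (σ + p * (Real.log G + n)), fun D hD K P hP hweak => ?_⟩
  have hD1 : (1 : ℝ) ≤ D := by exact_mod_cast hD
  have hlogD : 0 ≤ Real.log D := Real.log_nonneg hD1
  have hlogG : 0 ≤ Real.log G := Real.log_nonneg hG1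
  set X : ℝ≥0∞ := ∫⁻ y in cube n 2, ‖ev P y‖ₑ ^ p with hX
  have hXt : X ≠ ∞ := by
    have hcpt : IsCompact (cube n 2) := by
      refine Metric.isCompact_of_isClosed_isBounded (cube_closed n 2) ?_
      exact isBounded_closedBall.subset fun y hy => CP.norm_le_of y hy
    obtain ⟨M, hM⟩ := hcpt.exists_bound_of_continuousOn (ev_cont P).continuousOn
    have h1 : X ≤ ∫⁻ _y in cube n 2, ENNReal.ofReal M ^ p := by
      refine setLIntegral_mono' (cube_meas n 2) fun y hy => ?_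
      refine ENNReal.rpow_le_rpow ?_ hp0.le
      rw [← ofReal_norm]
      exact ENNReal.ofReal_le_ofReal (hM y hy)
    refine (h1.trans_lt ?_).ne
    rw [setLIntegral_const]
    exact ENNReal.mul_lt_top (ENNReal.rpow_lt_top_of_nonneg hp0.le ENNReal.ofReal_ne_top)
      cube_fin.lt_top
  rcases eq_or_ne X 0 with hX0 | hX0
  · have h1 : ∀ e : sphere (0 : E n) 1, smax P (e : E n) = 0 := fun e => by
      have h2 := smax_sup hpq hD hP (mem_sphere_zero_iff_norm.1 e.2)
      rw [← hX, hX0, ENNReal.zero_rpow_of_pos (by positivity), mul_zero, mul_zero] at h2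
      exact le_antisymm h2 zero_le
    simp [h1, ENNReal.zero_rpow_of_pos hp0]
  -- the norm as a real number
  set R : ℝ := (X ^ (1 / p)).toReal with hR
  have hX1t : X ^ (1 / p) ≠ ∞ := ENNReal.rpow_ne_top_of_nonneg (by positivity) hXt
  have hX10 : X ^ (1 / p) ≠ 0 := (ENNReal.rpow_pos (pos_iff_ne_zero.2 hX0) hXt).ne'
  have hR0 : 0 < R := ENNReal.toReal_pos hX10 hX1t
  have hRX : ENNReal.ofReal R = X ^ (1 / p) := ENNReal.ofReal_toReal hX1t
  have hRp : ENNReal.ofReal (R ^ p) = X := by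
    rw [← ENNReal.ofReal_rpow_of_nonneg hR0.le hp0.le, hRX, ← ENNReal.rpow_mul,
      one_div_mul_cancel hp0.ne', ENNReal.rpow_one]
  have hsup : ∀ e : sphere (0 : E n) 1, smax P (e : E n) ≤ ENNReal.ofReal (G * D ^ n * R) := by
    intro e
    refine (smax_sup hpq hD hP (mem_sphere_zero_iff_norm.1 e.2)).trans ?_
    rw [← hX, ← hRX, ← ENNReal.ofReal_toReal hvt, ← hv, ← ENNReal.ofReal_mul hv0,
      ← ENNReal.ofReal_mul (by positivity)]
    refine ENNReal.ofReal_le_ofReal ?_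
    have e1 : (4 * (D : ℝ)) ^ n * (v * R) = 4 ^ n * v * D ^ n * R := by rw [mul_pow]; ring
    rw [e1, hG]
    gcongr
    linarith
  have hDn : (1 : ℝ) ≤ (D : ℝ) ^ n := one_le_pow₀ hD1
  have hmL : R ≤ G * D ^ n * R := by
    have h1 : 1 ≤ G * (D : ℝ) ^ n := by nlinarith
    nlinarith
  have h2 := weak_to_strong (μ := surf n) (F := fun e : sphere (0 : E n) 1 => smax P (e : E n))
    ((smax_meas' P).comp measurable_subtype_coe) hp1 (A := K * R ^ p) (L := G * D ^ n * R) (m := R)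
    (by positivity) hR0 hmL hsup (fun l hl => by
      rw [ENNReal.ofReal_mul (NNReal.coe_nonneg K), hRp, ENNReal.ofReal_coe_nnreal]
      exact hweak l hl)
  refine h2.trans ?_
  have e2 : G * (D : ℝ) ^ n * R / R = G * D ^ n := by field_simp
  have e3 : Real.log (G * (D : ℝ) ^ n) = Real.log G + n * Real.log D := by
    rw [Real.log_mul (by positivity) (by positivity), Real.log_pow]
  rw [e2, e3, ← ENNReal.ofReal_toReal hσt, ← hσ, ← ENNReal.ofReal_mul (by positivity),
    ← ENNReal.ofReal_add (by positivity) (by positivity)]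
  have e4 : ((Real.toNNReal (σ + p * (Real.log G + n)) : ℝ≥0) : ℝ≥0∞) =
      ENNReal.ofReal (σ + p * (Real.log G + n)) := rfl
  have hσ0 : 0 ≤ σ := ENNReal.toReal_nonneg
  rw [e4, ← ENNReal.ofReal_coe_nnreal (p := K), ← ENNReal.ofReal_one,
    ← ENNReal.ofReal_add (by norm_num) (NNReal.coe_nonneg K), ← ENNReal.ofReal_mul (by positivity),
    ← ENNReal.ofReal_mul (by positivity), ← hRp, ← ENNReal.ofReal_mul (by positivity)]
  refine ENNReal.ofReal_le_ofReal ?_
  have hRp0 : 0 < R ^ p := by positivity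
  have hK0 : (0 : ℝ) ≤ K := NNReal.coe_nonneg K
  have hn0 : (0 : ℝ) ≤ n := Nat.cast_nonneg n
  have h5 : σ + p * K * (Real.log G + n * Real.log D) ≤
      (σ + p * (Real.log G + n)) * (1 + K) * (1 + Real.log D) := by
    have h6 : p * K * (Real.log G + n * Real.log D) ≤ p * (Real.log G + n) * K * (1 + Real.log D) := by
      have h7 : Real.log G + n * Real.log D ≤ (Real.log G + n) * (1 + Real.log D) := by
        nlinarith [mul_nonneg hlogG hlogD]
      calc p * K * (Real.log G + n * Real.log D)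
          ≤ p * K * ((Real.log G + n) * (1 + Real.log D)) := by gcongr
        _ = _ := by ring
    have h8 : 0 ≤ σ * (K + Real.log D + K * Real.log D) := by positivity
    have h9 : 0 ≤ p * (Real.log G + n) * (1 + Real.log D) := by positivity
    nlinarith
  calc R ^ p * σ + p * (K * R ^ p) * (Real.log G + n * Real.log D)
      = (σ + p * K * (Real.log G + n * Real.log D)) * R ^ p := by ring
    _ ≤ _ := by gcongr

end Pool.Agent.H222.KM
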