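import Mathlib

/-!
Subtask KM-1 (owner helper222): a linear functional on a finite-dimensional space of functions which
is bounded by `M` times the `L^p` norm is represented by a function with `L^q` norm at most `M`,
`1/p + 1/q = 1`, `1 < p < ∞`.
-/

open MeasureTheory Set Metric
open scoped ENNReal NNReal Topology

namespace Pool.Agent.H222.KM

section aux

variable {α : Type*} [MeasurableSpace α] {μ : Measure α} {p : ℝ}

theorem lp_norm_pow (hp : 1 < p) {f : α → ℝ} (hf : MemLp f (ENNReal.ofReal p) μ) :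
    (eLpNorm f (ENNReal.ofReal p) μ).toReal ^ p = ∫ x, |f x| ^ p ∂μ := by
  have hp0 : (0:ℝ) < p := by linarith
  have h1 : ENNReal.ofReal p ≠ 0 := by simpa using hp0
  rw [hf.eLpNorm_eq_integral_rpow_norm h1 ENNReal.ofReal_ne_top, ENNReal.toReal_ofReal hp0.le]
  have h2 : 0 ≤ ∫ a, ‖f a‖ ^ p ∂μ :=
    integral_nonneg fun a => Real.rpow_nonneg (norm_nonneg _) _
  rw [ENNReal.toReal_ofReal (Real.rpow_nonneg h2 _), ← Real.rpow_mul h2, inv_mul_cancel₀ hp0.ne',
    Real.rpow_one]
  rfl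

theorem int_pow (hp : 1 < p) {f : α → ℝ} (hf : MemLp f (ENNReal.ofReal p) μ) :
    Integrable (fun x => |f x| ^ p) μ := by
  have hp0 : (0:ℝ) < p := by linarith
  have h1 : ENNReal.ofReal p ≠ 0 := by simpa using hp0
  have := hf.integrable_norm_rpow h1 ENNReal.ofReal_ne_top
  rw [ENNReal.toReal_ofReal hp0.le] at this
  exact this

theorem abs_h (hp : 1 < p) (a : ℝ) : |(|a| ^ (p - 2) * a)| = |a| ^ (p - 1) := by
  rw [abs_mul, abs_of_nonneg (Real.rpow_nonneg (abs_nonneg a) _)]
  rcases eq_or_ne a 0 with rfl | ha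
  · rw [abs_zero, mul_zero, Real.zero_rpow (by linarith)]
  · have h := abs_pos.2 ha
    nth_rewrite 2 [← Real.rpow_one |a|]
    rw [← Real.rpow_add h]
    congr 1
    ring

theorem h_mul (hp : 1 < p) (a : ℝ) : a * (|a| ^ (p - 2) * a) = |a| ^ p := by
  have h1 : a * (|a| ^ (p - 2) * a) = |a| ^ (p - 2) * |a| * |a| := by
    rw [mul_assoc, abs_mul_abs_self]
    ring
  have h2 : |a| ^ (p - 2) * |a| = |a| ^ (p - 1) := by
    rw [← abs_h hp a, abs_mul, abs_of_nonneg (Real.rpow_nonneg (abs_nonneg a) _)]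
  rw [h1, h2]
  rcases eq_or_ne a 0 with rfl | ha
  · rw [abs_zero, mul_zero, Real.zero_rpow (by linarith)]
  · have h := abs_pos.2 ha
    nth_rewrite 2 [← Real.rpow_one |a|]
    rw [← Real.rpow_add h]
    congr 1
    ring

theorem meas_h {f : α → ℝ} (hf : AEStronglyMeasurable f μ) :
    AEStronglyMeasurable (fun x => |f x| ^ (p - 2) * f x) μ := by
  have h1 := hf.aemeasurable
  exact ((h1.abs.pow_const _).mul h1).aestronglyMeasurable

/-- the derivative of the integral of the `p`-th power -/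
theorem deriv_int (hp : 1 < p) {f g : α → ℝ} (hf : MemLp f (ENNReal.ofReal p) μ)
    (hg : MemLp g (ENNReal.ofReal p) μ) :
    HasDerivAt (fun t : ℝ => ∫ x, |f x + t * g x| ^ p ∂μ)
      (∫ x, p * (g x * (|f x| ^ (p - 2) * f x)) ∂μ) 0 := by
  have hp0 : (0:ℝ) < p := by linarith
  have hfg : ∀ t : ℝ, MemLp (fun x => f x + t * g x) (ENNReal.ofReal p) μ :=
    fun t => hf.add (hg.const_mul t)
  have hb : MemLp (fun x => |f x| + |g x|) (ENNReal.ofReal p) μ := hf.abs.add hg.abs
  have hbi : Integrable (fun x => p * (|f x| + |g x|) ^ p) μ := by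
    refine ((int_pow hp hb).congr ?_).const_mul p
    refine Filter.Eventually.of_forall fun x => ?_
    change |(|f x| + |g x|)| ^ p = (|f x| + |g x|) ^ p
    rw [abs_of_nonneg (by positivity)]
  have key := hasDerivAt_integral_of_dominated_loc_of_deriv_le (μ := μ) (𝕜 := ℝ)
    (F := fun (t : ℝ) x => |f x + t * g x| ^ p) (x₀ := (0:ℝ)) (s := Metric.ball (0:ℝ) 1)
    (bound := fun x => p * (|f x| + |g x|) ^ p)
    (F' := fun (t : ℝ) x => p * (|f x + t * g x| ^ (p - 2) * (f x + t * g x)) * g x)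
    (Metric.ball_mem_nhds _ one_pos)
    (Filter.Eventually.of_forall fun t => (int_pow hp (hfg t)).aestronglyMeasurable)
    (int_pow hp (hfg 0))
    (((meas_h (hfg 0).aestronglyMeasurable).const_mul p).mul hg.aestronglyMeasurable)
    (Filter.Eventually.of_forall fun x t ht => ?_) hbi
    (Filter.Eventually.of_forall fun x t ht => ?_)
  · have h1 := key.2
    refine h1.congr_deriv ?_
    refine integral_congr_ae (Filter.Eventually.of_forall fun x => ?_)
    change p * (|f x + 0 * g x| ^ (p - 2) * (f x + 0 * g x)) * g x =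
      p * (g x * (|f x| ^ (p - 2) * f x))
    rw [zero_mul, add_zero]
    ring
  · have ht' : |t| ≤ 1 := by
      rw [mem_ball_zero_iff] at ht
      exact ht.le
    rw [Real.norm_eq_abs, abs_mul, abs_mul, abs_of_pos hp0, abs_h hp, mul_assoc]
    refine mul_le_mul_of_nonneg_left ?_ hp0.le
    have h2 : |f x + t * g x| ≤ |f x| + |g x| := by
      refine (abs_add_le _ _).trans ?_
      rw [abs_mul]
      have := mul_le_of_le_one_left (abs_nonneg (g x)) ht'
      linarith
    have h0 : 0 ≤ |f x| + |g x| := by positivity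
    calc |f x + t * g x| ^ (p - 1) * |g x|
        ≤ (|f x| + |g x|) ^ (p - 1) * (|f x| + |g x|) := by
          refine mul_le_mul (Real.rpow_le_rpow (abs_nonneg _) h2 (by linarith)) ?_
            (abs_nonneg _) (Real.rpow_nonneg h0 _)
          linarith [abs_nonneg (f x)]
      _ = (|f x| + |g x|) ^ p := by
          rcases h0.eq_or_lt with h | h
          · rw [← h, mul_zero, Real.zero_rpow (by linarith)]
          · nth_rewrite 2 [← Real.rpow_one (|f x| + |g x|)]
            rw [← Real.rpow_add h]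
            congr 1
            ring
  · have h1 : HasDerivAt (fun t : ℝ => f x + t * g x) (g x) t := by
      simpa using ((hasDerivAt_id t).mul_const (g x)).const_add (f x)
    have h2 := (hasDerivAt_abs_rpow (f x + t * g x) hp).comp t h1
    refine h2.congr_deriv ?_
    ring

end aux

theorem lp_rep {α : Type*} [MeasurableSpace α] {μ : Measure α} [IsFiniteMeasure μ] {p q : ℝ}
    (hpq : p.HolderConjugate q) {V : Type*} [AddCommGroup V] [Module ℝ V] [Module.Finite ℝ V]
    (T : V →ₗ[ℝ] (α → ℝ)) (hT : ∀ v, MemLp (T v) (ENNReal.ofReal p) μ) (Λ : V →ₗ[ℝ] ℝ) (M : ℝ≥0)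
    (hΛ : ∀ v, ENNReal.ofReal |Λ v| ≤ M * eLpNorm (T v) (ENNReal.ofReal p) μ) :
    ∃ h : α → ℝ, MemLp h (ENNReal.ofReal q) μ ∧ eLpNorm h (ENNReal.ofReal q) μ ≤ M ∧
      ∀ v, ∫ x, T v x * h x ∂μ = Λ v := by
  have hp : 1 < p := hpq.lt
  have hp0 : (0:ℝ) < p := by linarith
  have hq0 : (0:ℝ) < q := hpq.symm.pos
  have : Fact ((1 : ℝ≥0∞) ≤ ENNReal.ofReal p) := ⟨by
    rw [← ENNReal.ofReal_one]
    exact ENNReal.ofReal_le_ofReal hp.le⟩
  let S : V →ₗ[ℝ] Lp ℝ (ENNReal.ofReal p) μ :=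
    { toFun := fun v => (hT v).toLp (T v)
      map_add' := fun v w => by
        rw [← MemLp.toLp_add]
        exact MemLp.toLp_congr _ _ (by rw [map_add])
      map_smul' := fun c v => by
        rw [RingHom.id_apply, ← MemLp.toLp_const_smul]
        exact MemLp.toLp_congr _ _ (by rw [map_smul]) }
  have hSn : ∀ v, ‖S v‖ = (eLpNorm (T v) (ENNReal.ofReal p) μ).toReal := fun v =>
    Lp.norm_toLp (T v) (hT v)
  have hSp : ∀ v, ‖S v‖ ^ p = ∫ x, |T v x| ^ p ∂μ := fun v => by
    rw [hSn, lp_norm_pow hp (hT v)]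
  have hΛ' : ∀ v, |Λ v| ≤ M * ‖S v‖ := fun v => by
    have h1 := ENNReal.toReal_mono (ENNReal.mul_ne_top ENNReal.coe_ne_top (hT v).2.ne) (hΛ v)
    rw [ENNReal.toReal_ofReal (abs_nonneg _), ENNReal.toReal_mul, ENNReal.coe_toReal,
      ← hSn] at h1
    exact h1
  -- the minimum
  obtain ⟨v₀, hv₀⟩ : ∃ v₀, ∀ v, ‖S v₀‖ ^ p / p - Λ v₀ ≤ ‖S v‖ ^ p / p - Λ v := by
    obtain ⟨σ, hσ⟩ := S.rangeRestrict.exists_rightInverse_of_surjective
      (LinearMap.range_rangeRestrict S)
    have hσ' : ∀ r : LinearMap.range S, S (σ r) = r := fun r => by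
      have := LinearMap.congr_fun hσ r
      exact congrArg Subtype.val this
    have hfac : ∀ v, Λ (σ ⟨S v, v, rfl⟩) = Λ v := fun v => by
      have h1 := hΛ' (σ ⟨S v, v, rfl⟩ - v)
      rw [map_sub S, hσ', sub_self, norm_zero, mul_zero] at h1
      have h2 := abs_nonpos_iff.1 h1
      rw [map_sub] at h2
      linarith
    have : FiniteDimensional ℝ (LinearMap.range S) := inferInstance
    have : ProperSpace (LinearMap.range S) := FiniteDimensional.proper_real _
    have hcont : Continuous fun r : LinearMap.range S => ‖r‖ ^ p / p - Λ (σ r) := by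
      refine ((continuous_norm.rpow_const fun _ => Or.inr hp0.le).div_const p).sub ?_
      exact (Λ.comp σ).continuous_of_finiteDimensional
    have hlim : Filter.Tendsto (fun r : LinearMap.range S => ‖r‖ ^ p / p - Λ (σ r))
        (Filter.cocompact _) Filter.atTop := by
      have h1 : Filter.Tendsto (fun x : ℝ => x * (x ^ (p - 1) / p - M)) Filter.atTop
          Filter.atTop := by
        refine Filter.tendsto_id.atTop_mul_atTop₀ ?_
        refine Filter.tendsto_atTop_add_const_right _ _ ?_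
        exact (tendsto_rpow_atTop (by linarith)).atTop_div_const hp0
      refine Filter.tendsto_atTop_mono (fun r => ?_) (h1.comp (tendsto_norm_cocompact_atTop))
      change ‖r‖ * (‖r‖ ^ (p - 1) / p - M) ≤ ‖r‖ ^ p / p - Λ (σ r)
      have h2 : ‖r‖ * ‖r‖ ^ (p - 1) = ‖r‖ ^ p := by
        rcases (norm_nonneg r).eq_or_lt with h | h
        · rw [← h, zero_mul, Real.zero_rpow hp0.ne']
        · nth_rewrite 1 [← Real.rpow_one ‖r‖]
          rw [← Real.rpow_add h]
          congr 1
          ring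
      have h3 := (le_abs_self _).trans (hΛ' (σ r))
      rw [hσ' r] at h3
      have h4 : ‖r‖ * (‖r‖ ^ (p - 1) / p - M) = ‖r‖ ^ p / p - M * ‖r‖ := by
        rw [mul_sub, mul_div_assoc', h2]
        ring
      rw [h4]
      have h5 : ‖(r : Lp ℝ (ENNReal.ofReal p) μ)‖ = ‖r‖ := rfl
      rw [h5] at h3
      linarith
    obtain ⟨r₀, hr₀⟩ := hcont.exists_forall_le hlim
    refine ⟨σ r₀, fun v => ?_⟩
    have h1 := hr₀ ⟨S v, v, rfl⟩
    rw [hfac] at h1
    rw [hσ']
    exact h1
  -- the Euler equation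
  have hE : ∀ u, ∫ x, T u x * (|T v₀ x| ^ (p - 2) * T v₀ x) ∂μ = Λ u := by
    intro u
    have h1 : HasDerivAt (fun t : ℝ => (∫ x, |T v₀ x + t * T u x| ^ p ∂μ) / p -
        (Λ v₀ + t * Λ u)) ((∫ x, p * (T u x * (|T v₀ x| ^ (p - 2) * T v₀ x)) ∂μ) / p -
        Λ u) 0 := by
      refine ((deriv_int hp (hT v₀) (hT u)).div_const p).sub ?_
      simpa using ((hasDerivAt_id (0:ℝ)).mul_const (Λ u)).const_add (Λ v₀)
    have h2 : IsLocalMin (fun t : ℝ => (∫ x, |T v₀ x + t * T u x| ^ p ∂μ) / p -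
        (Λ v₀ + t * Λ u)) 0 := by
      refine Filter.Eventually.of_forall fun t => ?_
      have h3 := hv₀ (v₀ + t • u)
      rw [hSp, hSp, map_add Λ, map_smul Λ, map_add T, map_smul T] at h3
      simpa using h3
    have h3 := h2.hasDerivAt_eq_zero h1
    rw [integral_const_mul, mul_div_assoc, mul_comm, div_mul_cancel₀ _ hp0.ne'] at h3
    linarith
  have hN : ‖S v₀‖ ^ (p - 1) ≤ M := by
    rcases (norm_nonneg (S v₀)).eq_or_lt with h | h
    · rw [← h, Real.zero_rpow (by linarith)]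
      exact M.2
    · have h1 := hE v₀
      have h2 : ∫ x, T v₀ x * (|T v₀ x| ^ (p - 2) * T v₀ x) ∂μ = ‖S v₀‖ ^ p := by
        rw [hSp]
        exact integral_congr_ae (Filter.Eventually.of_forall fun x => h_mul hp _)
      have h3 := (le_abs_self _).trans (hΛ' v₀)
      rw [← h1, h2] at h3
      have h4 : ‖S v₀‖ ^ p = ‖S v₀‖ ^ (p - 1) * ‖S v₀‖ := by
        nth_rewrite 3 [← Real.rpow_one ‖S v₀‖]
        rw [← Real.rpow_add h]
        congr 1
        ring
      rw [h4] at h3
      exact le_of_mul_le_mul_right h3 h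
  have hq : eLpNorm (fun x => |T v₀ x| ^ (p - 2) * T v₀ x) (ENNReal.ofReal q) μ =
      ENNReal.ofReal (‖S v₀‖ ^ (p - 1)) := by
    have hq1 : ENNReal.ofReal q ≠ 0 := by simpa using hq0
    rw [eLpNorm_eq_lintegral_rpow_enorm_toReal hq1 ENNReal.ofReal_ne_top,
      ENNReal.toReal_ofReal hq0.le]
    have h1 : ∀ x, ‖|T v₀ x| ^ (p - 2) * T v₀ x‖ₑ ^ q = ENNReal.ofReal (|T v₀ x| ^ p) := by
      intro x
      rw [← ofReal_norm, Real.norm_eq_abs, abs_h hp,
        ENNReal.ofReal_rpow_of_nonneg (Real.rpow_nonneg (abs_nonneg _) _) hq0.le,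
        ← Real.rpow_mul (abs_nonneg _), hpq.sub_one_mul_conj]
    simp_rw [h1]
    rw [← ofReal_integral_eq_lintegral_ofReal (int_pow hp (hT v₀))
      (Filter.Eventually.of_forall fun x => Real.rpow_nonneg (abs_nonneg _) _), ← hSp,
      ENNReal.ofReal_rpow_of_nonneg (Real.rpow_nonneg (norm_nonneg _) _) (by positivity),
      ← Real.rpow_mul (norm_nonneg _)]
    congr 2
    have := hpq.sub_one_mul_conj
    field_simp
    linarith
  refine ⟨fun x => |T v₀ x| ^ (p - 2) * T v₀ x,
    ⟨meas_h (hT v₀).aestronglyMeasurable, ?_⟩, ?_, hE⟩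
  · rw [hq]
    exact ENNReal.ofReal_lt_top
  · rw [hq, ← ENNReal.ofReal_coe_nnreal]
    exact ENNReal.ofReal_le_ofReal hN

end Pool.Agent.H222.KM
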