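import Mathlib

/-!
Subtask KM-2 (owner helper222): measurable selection of almost optimal segments for a polynomial.
-/

open MeasureTheory Set Metric
open scoped ENNReal NNReal Topology

namespace Pool.Agent.H222.KM

theorem lint_eq {f : ℝ → ℝ} (hf : Continuous f) {a b : ℝ} (hab : a ≤ b) :
    ∫⁻ s in Icc a b, ‖f s‖ₑ = ENNReal.ofReal (∫ s in a..b, ‖f s‖) := by
  have hi : IntegrableOn f (Icc a b) := hf.continuousOn.integrableOn_Icc
  rw [← ofReal_integral_norm_eq_lintegral_enorm hi, intervalIntegral.integral_of_le hab,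
    integral_Icc_eq_integral_Ioc]

theorem cont_aff (n : ℕ) (P : MvPolynomial (Fin n) ℝ) {X : Type*} [TopologicalSpace X] {f : X → Fin n → ℝ}
    (hf : ∀ i, Continuous fun x => f x i) : Continuous (fun x => MvPolynomial.eval (f x) P) :=
  (MvPolynomial.continuous_eval P).comp (continuous_pi hf)

theorem cont_line (n : ℕ) (P : MvPolynomial (Fin n) ℝ) (b e : EuclideanSpace ℝ (Fin n)) :
    Continuous (fun s : ℝ => MvPolynomial.eval (fun i => (b + s • e) i) P) := by
  refine cont_aff n P (f := fun s i => (b + s • e) i) fun i => ?_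
  fun_prop

theorem cont_joint (n : ℕ) (P : MvPolynomial (Fin n) ℝ) :
    Continuous (fun x : (EuclideanSpace ℝ (Fin n) × EuclideanSpace ℝ (Fin n)) × ℝ =>
      MvPolynomial.eval (fun i => (x.1.1 + x.2 • x.1.2) i) P) := by
  refine cont_aff n P (f := fun (x : (EuclideanSpace ℝ (Fin n) × EuclideanSpace ℝ (Fin n)) × ℝ) i =>
    (x.1.1 + x.2 • x.1.2) i) fun i => ?_
  fun_prop

/-- Selection of an almost optimal point, abstractly. -/
theorem select_abs {E : Type*} [TopologicalSpace E] [TopologicalSpace.PseudoMetrizableSpace E]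
    [MeasurableSpace E] [BorelSpace E] [SecondCountableTopology E] {K : Set E} (hKK : IsCompact K)
    (hne : Nonempty K) {G : E → E → ℝ} (hG : Continuous (fun x : E × E => G x.1 x.2)) {c : ℝ} (hc1 : c < 1) :
    ∃ a : E → E, Measurable a ∧ (∀ e, a e ∈ K) ∧ ∀ e,
      ENNReal.ofReal c * (⨆ b ∈ K, ENNReal.ofReal (G b e)) ≤ ENNReal.ofReal (G (a e) e) := by
  classical
  have hGl : ∀ b, Continuous (fun e => G b e) := fun b => by
    have h : Continuous (fun e : E => ((b, e) : E × E)) := by fun_prop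
    exact hG.comp h
  have hGr : ∀ e, Continuous (fun b => G b e) := fun e => by
    have h : Continuous (fun b : E => ((b, e) : E × E)) := by fun_prop
    exact hG.comp h
  set d : ℕ → K := TopologicalSpace.denseSeq K with hd
  have hdense : DenseRange d := TopologicalSpace.denseRange_denseSeq K
  set S : E → ℝ≥0∞ := fun e => ⨆ b ∈ K, ENNReal.ofReal (G b e) with hS
  have hSm : Measurable S := by
    have : LowerSemicontinuous S := by
      refine lowerSemicontinuous_biSup fun b _ => Continuous.lowerSemicontinuous ?_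
      exact ENNReal.continuous_ofReal.comp (hGl b)
    exact this.measurable
  have hSfin : ∀ e, S e < ∞ := by
    intro e
    obtain ⟨M, hM⟩ := hKK.bddAbove_image (f := fun b => G b e) (hGr e).continuousOn
    refine lt_of_le_of_lt (iSup₂_le fun b hb => ?_) (ENNReal.ofReal_lt_top (r := M))
    exact ENNReal.ofReal_le_ofReal (hM ⟨b, hb, rfl⟩)
  have hcc : ENNReal.ofReal c < 1 := by
    rw [← ENNReal.ofReal_one]
    exact (ENNReal.ofReal_lt_ofReal_iff one_pos).2 hc1
  have hex : ∀ e, ∃ j, ENNReal.ofReal c * S e ≤ ENNReal.ofReal (G (d j : E) e) := by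
    intro e
    rcases eq_or_ne (S e) 0 with h0 | h0
    · exact ⟨0, by rw [h0, mul_zero]; exact zero_le⟩
    · have hlt : ENNReal.ofReal c * S e < S e := by
        calc ENNReal.ofReal c * S e < 1 * S e :=
              (ENNReal.mul_lt_mul_iff_left h0 (hSfin e).ne).2 hcc
          _ = S e := one_mul _
      have hlt' : ENNReal.ofReal c * S e < ⨆ b ∈ K, ENNReal.ofReal (G b e) := hlt
      rw [lt_iSup_iff] at hlt'
      obtain ⟨b, hb⟩ := hlt'
      rw [lt_iSup_iff] at hb
      obtain ⟨hbK, hb⟩ := hb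
      have hopen : IsOpen {x : K | ENNReal.ofReal c * S e < ENNReal.ofReal (G (x : E) e)} := by
        refine isOpen_lt continuous_const ?_
        exact ENNReal.continuous_ofReal.comp ((hGr e).comp continuous_subtype_val)
      obtain ⟨j, hj⟩ := hdense.exists_mem_open hopen ⟨⟨b, hbK⟩, hb⟩
      exact ⟨j, le_of_lt hj⟩
  refine ⟨fun e => (d (Nat.find (hex e)) : E), ?_, ?_, ?_⟩
  · have hm : Measurable fun e => Nat.find (hex e) := by
      refine measurable_find hex fun k => ?_
      refine measurableSet_le (measurable_const.mul hSm) ?_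
      exact (ENNReal.continuous_ofReal.comp (hGl _)).measurable
    exact (measurable_from_nat (f := fun j : ℕ => (d j : E))).comp hm
  · intro e
    exact (d (Nat.find (hex e))).2
  · intro e
    exact Nat.find_spec (hex e)

/-- Paper proof. `g b e = ∫_{-1/2}^{1/2} |P (b + s e)| ds` is continuous in `(b, e)` (and finite), so
for a countable dense subset `{b j}` of the cube `[-1/2, 1/2]^n` the supremum `S e` over the cube is
the supremum over `j`, and it is finite (compactness). Let `a e = b (j e)`, `j e` the least `j` with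
`c * S e ≤ g (b j) e` (exists: if `S e = 0` any `j`, otherwise `c * S e < S e`). The sets `{j e = k}`
are measurable (`Measurable` of `e ↦ S e`: countable supremum of continuous functions). -/
theorem select (n : ℕ) (P : MvPolynomial (Fin n) ℝ) {c : ℝ} (hc0 : 0 < c) (hc1 : c < 1) :
    ∃ a : EuclideanSpace ℝ (Fin n) → EuclideanSpace ℝ (Fin n), Measurable a ∧
      (∀ e i, |a e i| ≤ 1 / 2) ∧ ∀ e : EuclideanSpace ℝ (Fin n),
        ENNReal.ofReal c * (⨆ b ∈ {b : EuclideanSpace ℝ (Fin n) | ∀ i, |b i| ≤ 1 / 2},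
          ∫⁻ s in Icc (-(1 / 2) : ℝ) (1 / 2), ‖MvPolynomial.eval (fun i => (b + s • e) i) P‖ₑ) ≤
        ∫⁻ s in Icc (-(1 / 2) : ℝ) (1 / 2), ‖MvPolynomial.eval (fun i => (a e + s • e) i) P‖ₑ := by
  classical
  -- joint continuity
  have hF0 := cont_joint n P
  have hF : Continuous (Function.uncurry (fun (x : EuclideanSpace ℝ (Fin n) × EuclideanSpace ℝ (Fin n)) (s : ℝ) =>
      ‖MvPolynomial.eval (fun i => (x.1 + s • x.2) i) P‖)) := continuous_norm.comp hF0
  set G : EuclideanSpace ℝ (Fin n) → EuclideanSpace ℝ (Fin n) → ℝ := fun b e =>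
    ∫ s in (-(1 / 2) : ℝ)..(1 / 2), ‖MvPolynomial.eval (fun i => (b + s • e) i) P‖ with hGdef
  have hG : Continuous (fun x : EuclideanSpace ℝ (Fin n) × EuclideanSpace ℝ (Fin n) => G x.1 x.2) :=
    intervalIntegral.continuous_parametric_intervalIntegral_of_continuous' hF _ _
  have hGeq : ∀ b e : EuclideanSpace ℝ (Fin n),
      ∫⁻ s in Icc (-(1 / 2) : ℝ) (1 / 2), ‖MvPolynomial.eval (fun i => (b + s • e) i) P‖ₑ =
        ENNReal.ofReal (G b e) := by
    intro b e
    exact lint_eq (cont_line n P b e) (by norm_num)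
  simp only [hGeq]
  -- the cube
  have hKc : IsClosed {b : EuclideanSpace ℝ (Fin n) | ∀ i, |b i| ≤ 1 / 2} := by
    have : {b : EuclideanSpace ℝ (Fin n) | ∀ i, |b i| ≤ 1 / 2} =
        ⋂ i, {b : EuclideanSpace ℝ (Fin n) | |b i| ≤ 1 / 2} := by
      ext b; simp
    rw [this]
    refine isClosed_iInter fun i => ?_
    have h : Continuous (fun y : EuclideanSpace ℝ (Fin n) => |y i|) := by fun_prop
    exact isClosed_le h continuous_const
  have hKb : Bornology.IsBounded {b : EuclideanSpace ℝ (Fin n) | ∀ i, |b i| ≤ 1 / 2} := by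
    rw [isBounded_iff_forall_norm_le]
    refine ⟨√(∑ _i : Fin n, (1 / 2 : ℝ) ^ 2), fun b hb => ?_⟩
    rw [EuclideanSpace.norm_eq]
    refine Real.sqrt_le_sqrt (Finset.sum_le_sum fun i _ => ?_)
    rw [Real.norm_eq_abs]
    exact pow_le_pow_left₀ (abs_nonneg _) (hb i) 2
  have hKK := Metric.isCompact_of_isClosed_isBounded hKc hKb
  have hne : Nonempty ↥{b : EuclideanSpace ℝ (Fin n) | ∀ i, |b i| ≤ 1 / 2} := ⟨⟨0, fun i => by simp⟩⟩
  obtain ⟨a, ha1, ha2, ha3⟩ := select_abs hKK hne hG hc1
  exact ⟨a, ha1, fun e i => ha2 e i, ha3⟩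

end Pool.Agent.H222.KM
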