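import Mathlib

/-!
Subtask KM-3 (owner helper222): from the weak type to the strong type with a logarithm.
-/

open MeasureTheory Set Metric
open scoped ENNReal NNReal Topology

namespace Pool.Agent.H222.KM

/-- Paper proof (layer cake, `lintegral_rpow_eq_lintegral_meas_lt_mul` or similar):
`∫ F^p = ∫_0^∞ p l^(p-1) μ {F > l} dl = ∫_0^m + ∫_m^L`; the first part is at most `m^p μ univ`, the
second at most `∫_m^L p l^(-1) A dl = p A log (L / m)`. -/
theorem weak_to_strong {α : Type*} [MeasurableSpace α] {μ : Measure α} [IsFiniteMeasure μ]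
    {F : α → ℝ≥0∞} (hF : Measurable F) {p : ℝ} (hp : 1 ≤ p) {A L m : ℝ} (hA : 0 ≤ A) (hm : 0 < m)
    (hmL : m ≤ L) (hFL : ∀ x, F x ≤ ENNReal.ofReal L)
    (h : ∀ l : ℝ, 0 < l → ENNReal.ofReal (l ^ p) * μ {x | ENNReal.ofReal l < F x} ≤
      ENNReal.ofReal A) :
    ∫⁻ x, F x ^ p ∂μ ≤ ENNReal.ofReal (m ^ p) * μ univ + ENNReal.ofReal (p * A * Real.log (L / m)) := by
  have hp0 : 0 < p := by linarith
  have hL : 0 < L := lt_of_lt_of_le hm hmL
  have hFt : ∀ x, F x ≠ ∞ := fun x => ne_top_of_le_ne_top ENNReal.ofReal_ne_top (hFL x)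
  have hf : Measurable fun x => (F x).toReal := hF.ennreal_toReal
  have h1 : ∫⁻ x, F x ^ p ∂μ = ∫⁻ x, ENNReal.ofReal ((F x).toReal ^ p) ∂μ := by
    refine lintegral_congr fun x => ?_
    rw [← ENNReal.ofReal_rpow_of_nonneg ENNReal.toReal_nonneg hp0.le, ENNReal.ofReal_toReal (hFt x)]
  rw [h1, lintegral_rpow_eq_lintegral_meas_lt_mul μ (Filter.Eventually.of_forall fun x => ENNReal.toReal_nonneg)
    hf.aemeasurable hp0]
  have hset : ∀ t : ℝ, 0 < t → {a : α | t < (F a).toReal} = {a | ENNReal.ofReal t < F a} := by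
    intro t ht
    ext a
    exact (ENNReal.ofReal_lt_iff_lt_toReal ht.le (hFt a)).symm
  -- the pointwise bound
  have hb : ∀ t ∈ Ioi (0 : ℝ), μ {a : α | t < (F a).toReal} * ENNReal.ofReal (t ^ (p - 1)) ≤
      (Ioc (0 : ℝ) m).indicator (fun t => μ univ * ENNReal.ofReal (t ^ (p - 1))) t +
      (Ioc m L).indicator (fun t => ENNReal.ofReal A * ENNReal.ofReal (t⁻¹)) t := by
    intro t ht
    have ht0 : 0 < t := ht
    rcases le_or_gt t m with h2 | h2
    · rw [indicator_of_mem (show t ∈ Ioc (0 : ℝ) m from ⟨ht0, h2⟩)]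
      refine le_trans ?_ (le_add_right le_rfl)
      gcongr
      exact subset_univ _
    · rcases le_or_gt t L with h3 | h3
      · rw [indicator_of_mem (show t ∈ Ioc m L from ⟨h2, h3⟩)]
        refine le_trans ?_ (le_add_left le_rfl)
        rw [hset t ht0]
        have h4 : t ^ (p - 1) = t ^ p * t⁻¹ := by
          rw [Real.rpow_sub_one ht0.ne', div_eq_mul_inv]
        rw [h4, ENNReal.ofReal_mul (by positivity), ← mul_assoc, mul_comm (μ _)]
        exact mul_le_mul' (h t ht0) le_rfl
      · have h5 : {a : α | t < (F a).toReal} = ∅ := by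
          refine Set.eq_empty_of_forall_notMem fun a ha => ?_
          have ha' : t < (F a).toReal := ha
          have := ENNReal.toReal_mono ENNReal.ofReal_ne_top (hFL a)
          rw [ENNReal.toReal_ofReal hL.le] at this
          linarith
        rw [h5]
        simp
  have hI : ∫⁻ t in Ioi (0 : ℝ), μ {a : α | t < (F a).toReal} * ENNReal.ofReal (t ^ (p - 1)) ≤
      μ univ * ENNReal.ofReal (m ^ p / p) + ENNReal.ofReal A * ENNReal.ofReal (Real.log (L / m)) := by
    refine (setLIntegral_mono' measurableSet_Ioi hb).trans ?_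
    have hm1 : Measurable fun t : ℝ => μ univ * ENNReal.ofReal (t ^ (p - 1)) := by fun_prop
    have hm2 : Measurable fun t : ℝ => ENNReal.ofReal A * ENNReal.ofReal (t⁻¹) := by fun_prop
    rw [lintegral_add_left (hm1.indicator measurableSet_Ioc)]
    refine add_le_add ?_ ?_
    · rw [lintegral_indicator measurableSet_Ioc, Measure.restrict_restrict measurableSet_Ioc,
        inter_eq_self_of_subset_left Ioc_subset_Ioi_self, lintegral_const_mul _ (by fun_prop)]
      gcongr
      have hint : IntervalIntegrable (fun t : ℝ => t ^ (p - 1)) volume 0 m :=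
        intervalIntegral.intervalIntegrable_rpow' (by linarith)
      have hint' : IntegrableOn (fun t : ℝ => t ^ (p - 1)) (Ioc 0 m) :=
        (intervalIntegrable_iff_integrableOn_Ioc_of_le hm.le).1 hint
      rw [← ofReal_integral_eq_lintegral_ofReal hint'
        ((ae_restrict_iff' measurableSet_Ioc).2 (Filter.Eventually.of_forall fun t ht =>
          Real.rpow_nonneg ht.1.le _)), ← intervalIntegral.integral_of_le hm.le,
        integral_rpow (Or.inl (by linarith))]
      apply ENNReal.ofReal_le_ofReal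
      rw [sub_add_cancel, Real.zero_rpow hp0.ne', sub_zero]
    · rw [lintegral_indicator measurableSet_Ioc, Measure.restrict_restrict measurableSet_Ioc,
        inter_eq_self_of_subset_left (show Ioc m L ⊆ Ioi 0 from fun t ht => lt_trans hm ht.1),
        lintegral_const_mul _ (by fun_prop)]
      gcongr
      have hint : IntervalIntegrable (fun t : ℝ => t⁻¹) volume m L := by
        rw [intervalIntegrable_inv_iff]
        right
        rw [uIcc_of_le hmL]
        exact fun h => absurd h.1 (not_le.2 hm)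
      have hint' : IntegrableOn (fun t : ℝ => t⁻¹) (Ioc m L) :=
        (intervalIntegrable_iff_integrableOn_Ioc_of_le hmL).1 hint
      rw [← ofReal_integral_eq_lintegral_ofReal hint'
        ((ae_restrict_iff' measurableSet_Ioc).2 (Filter.Eventually.of_forall fun t ht =>
          inv_nonneg.2 (hm.le.trans ht.1.le))), ← intervalIntegral.integral_of_le hmL,
        integral_inv_of_pos hm hL]
  calc ENNReal.ofReal p * ∫⁻ t in Ioi (0 : ℝ), μ {a : α | t < (F a).toReal} * ENNReal.ofReal (t ^ (p - 1))
      ≤ ENNReal.ofReal p * (μ univ * ENNReal.ofReal (m ^ p / p) +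
          ENNReal.ofReal A * ENNReal.ofReal (Real.log (L / m))) := by gcongr
    _ = ENNReal.ofReal (m ^ p) * μ univ + ENNReal.ofReal (p * A * Real.log (L / m)) := by
        rw [mul_add]
        congr 1
        · rw [mul_comm (μ univ), ← mul_assoc, ← ENNReal.ofReal_mul hp0.le, mul_div_cancel₀ _ hp0.ne']
        · rw [← ENNReal.ofReal_mul hA, ← ENNReal.ofReal_mul hp0.le, mul_assoc]

end Pool.Agent.H222.KM
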