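import Pool.Agent.H222.KP.Sharp
import Pool.Agent.H222.KM.Rep
import Pool.Agent.H222.KM.Sel
import Pool.Agent.H222.KM.Weak

/-!
The moments of families of unit segments.
-/

open MeasureTheory Set Filter Topology ENNReal NNReal Metric

namespace Pool.Agent.H222.KM

open Pool.Agent.H222.KP Pool.Agent.H742R2.Kk

variable {n : ℕ}

/-- the Lebesgue measure on the cube `[-2, 2]^n` -/
noncomputable abbrev lam (n : ℕ) : Measure (E n) := volume.restrict (cube n 2)

theorem lam_fin : IsFiniteMeasure (lam n) := ⟨by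
  rw [Measure.restrict_apply_univ]; exact cube_fin.lt_top⟩

/-- the integral of a polynomial over the unit segment with midpoint `b` and direction `e` -/
noncomputable def seg (P : MvPolynomial (Fin n) ℝ) (b e : E n) : ℝ :=
  ∫ s in Icc (-(1 / 2) : ℝ) (1 / 2), ev P (b + s • e)

theorem ev_int (P : MvPolynomial (Fin n) ℝ) (b e : E n) :
    IntegrableOn (fun s : ℝ => ev P (b + s • e)) (Icc (-(1 / 2) : ℝ) (1 / 2)) :=
  ((ev_cont P).comp (by fun_prop)).continuousOn.integrableOn_Icc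

theorem seg_le {P : MvPolynomial (Fin n) ℝ} {b : E n} (hb : b ∈ cube n (1 / 2)) (e : E n) :
    ‖seg P b e‖ₑ ≤ smax P e := by
  refine (enorm_integral_le_lintegral_enorm _).trans ?_
  exact le_iSup₂ (f := fun (a : E n) (_ : a ∈ cube n (1 / 2)) =>
    ∫⁻ s in Icc (-(1 / 2) : ℝ) (1 / 2), ‖ev P (a + s • e)‖ₑ) b hb

theorem seg_meas (P : MvPolynomial (Fin n) ℝ) {a : sphere (0 : E n) 1 → E n} (ha : Measurable a) :
    Measurable fun e : sphere (0 : E n) 1 => seg P (a e) e := by
  have h1 : Measurable fun z : sphere (0 : E n) 1 × ℝ => ev P (a z.1 + z.2 • (z.1 : E n)) :=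
    (ev_cont P).measurable.comp
      ((ha.comp measurable_fst).add
        (measurable_snd.smul (measurable_subtype_coe.comp measurable_fst)))
  exact (StronglyMeasurable.integral_prod_right (f := fun (e : sphere (0 : E n) 1) (s : ℝ) =>
    ev P (a e + s • (e : E n))) h1.stronglyMeasurable).measurable

/-- the polynomials of degree at most `D` as functions -/
noncomputable def evL (n D : ℕ) : MvPolynomial.restrictTotalDegree (Fin n) ℝ D →ₗ[ℝ] (E n → ℝ) where
  toFun P := ev (P : MvPolynomial (Fin n) ℝ)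
  map_add' P Q := by
    funext x
    simp [ev]
  map_smul' c P := by
    funext x
    simp [ev]

theorem smax_fin (P : MvPolynomial (Fin n) ℝ) : ∃ L : ℝ≥0, ∀ e : E n, ‖e‖ = 1 → smax P e ≤ L := by
  have hcpt : IsCompact (cube n 2) := by
    refine Metric.isCompact_of_isClosed_isBounded (cube_closed n 2) ?_
    exact isBounded_closedBall.subset fun y hy => CP.norm_le_of y hy
  obtain ⟨M, hM⟩ := hcpt.exists_bound_of_continuousOn (ev_cont P).continuousOn
  refine ⟨M.toNNReal, fun e he => iSup₂_le fun a ha => ?_⟩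
  calc ∫⁻ s in Icc (-(1 / 2) : ℝ) (1 / 2), ‖ev P (a + s • e)‖ₑ
      ≤ ∫⁻ _s in Icc (-(1 / 2) : ℝ) (1 / 2), ENNReal.ofReal M := by
        refine setLIntegral_mono' measurableSet_Icc fun s hs => ?_
        rw [← ofReal_norm]
        exact ENNReal.ofReal_le_ofReal (hM _ (cube_mono (by norm_num) (seg_cube ha he hs)))
    _ = ENNReal.ofReal M := by
        rw [setLIntegral_const, Real.volume_Icc]
        have h2 : ENNReal.ofReal (1 / 2 - -(1 / 2)) = 1 := by norm_num
        rw [h2, mul_one]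

theorem seg_bdd {P : MvPolynomial (Fin n) ℝ} {L : ℝ≥0} (hL : ∀ e : E n, ‖e‖ = 1 → smax P e ≤ L)
    {a : sphere (0 : E n) 1 → E n} (hac : ∀ e, a e ∈ cube n (1 / 2)) (e : sphere (0 : E n) 1) :
    ‖seg P (a e) e‖ ≤ L := by
  have h1 := (seg_le (P := P) (hac e) e).trans (hL e (mem_sphere_zero_iff_norm.1 e.2))
  rw [← ofReal_norm] at h1
  have h2 := ENNReal.toReal_mono ENNReal.coe_ne_top h1
  rwa [ENNReal.toReal_ofReal (norm_nonneg _), ENNReal.coe_toReal] at h2

theorem wseg_int {q : ℝ} (hq : 1 ≤ q) {w : sphere (0 : E n) 1 → ℝ}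
    (hw : MemLp w (ENNReal.ofReal q) (surf n)) (P : MvPolynomial (Fin n) ℝ)
    {a : sphere (0 : E n) 1 → E n} (ha : Measurable a) (hac : ∀ e, a e ∈ cube n (1 / 2)) :
    Integrable (fun e : sphere (0 : E n) 1 => w e * seg P (a e) e) (surf n) := by
  obtain ⟨L, hL⟩ := smax_fin P
  have hw1 : Integrable w (surf n) := by
    rw [← memLp_one_iff_integrable]
    exact hw.mono_exponent (by rw [← ENNReal.ofReal_one]; exact ENNReal.ofReal_le_ofReal hq)
  exact hw1.mul_bdd (c := L) (seg_meas P ha).aestronglyMeasurable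
    (Eventually.of_forall fun e => seg_bdd hL hac e)

/-- the moment functional of a family of segments -/
noncomputable def momL (n D : ℕ) {q : ℝ} (hq : 1 ≤ q) {w : sphere (0 : E n) 1 → ℝ}
    (hw : MemLp w (ENNReal.ofReal q) (surf n)) {a : sphere (0 : E n) 1 → E n} (ha : Measurable a)
    (hac : ∀ e, a e ∈ cube n (1 / 2)) : MvPolynomial.restrictTotalDegree (Fin n) ℝ D →ₗ[ℝ] ℝ where
  toFun P := ∫ e, w e * seg (P : MvPolynomial (Fin n) ℝ) (a e) e ∂(surf n)
  map_add' P Q := by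
    rw [← integral_add (wseg_int hq hw _ ha hac) (wseg_int hq hw _ ha hac)]
    refine integral_congr_ae (Eventually.of_forall fun e => ?_)
    show w e * seg ((P : MvPolynomial (Fin n) ℝ) + (Q : MvPolynomial (Fin n) ℝ)) (a e) e = _
    have h1 : seg ((P : MvPolynomial (Fin n) ℝ) + (Q : MvPolynomial (Fin n) ℝ)) (a e) e =
        seg (P : MvPolynomial (Fin n) ℝ) (a e) e + seg (Q : MvPolynomial (Fin n) ℝ) (a e) e := by
      unfold seg
      rw [← integral_add (ev_int _ _ _) (ev_int _ _ _)]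
      refine integral_congr_ae (Eventually.of_forall fun s => ?_)
      simp [ev]
    rw [h1]
    ring
  map_smul' c P := by
    rw [RingHom.id_apply, smul_eq_mul, ← integral_const_mul]
    refine integral_congr_ae (Eventually.of_forall fun e => ?_)
    show w e * seg (c • (P : MvPolynomial (Fin n) ℝ)) (a e) e = _
    have h1 : seg (c • (P : MvPolynomial (Fin n) ℝ)) (a e) e =
        c * seg (P : MvPolynomial (Fin n) ℝ) (a e) e := by
      unfold seg
      rw [← integral_const_mul]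
      refine integral_congr_ae (Eventually.of_forall fun s => ?_)
      simp [ev, MvPolynomial.smul_eval]
    rw [h1]
    ring

/-- **From the inequality for polynomials to moments.** -/
theorem mom_of_poly {p q : ℝ} (hpq : p.HolderConjugate q) {D : ℕ} {B : ℝ≥0∞} (hB : B ≠ ∞)
    (h : ∀ P : MvPolynomial (Fin n) ℝ, P.totalDegree ≤ D →
      ∫⁻ e, smax P (e : E n) ^ p ∂(surf n) ≤ B * ∫⁻ y in cube n 2, ‖ev P y‖ₑ ^ p)
    {a : sphere (0 : E n) 1 → E n} (ha : Measurable a) (hac : ∀ e, a e ∈ cube n (1 / 2))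
    {w : sphere (0 : E n) 1 → ℝ} (hw : MemLp w (ENNReal.ofReal q) (surf n)) :
    ∃ h : E n → ℝ, MemLp h (ENNReal.ofReal q) (lam n) ∧
      eLpNorm h (ENNReal.ofReal q) (lam n) ≤ B ^ (1 / p) * eLpNorm w (ENNReal.ofReal q) (surf n) ∧
      ∀ P : MvPolynomial (Fin n) ℝ, P.totalDegree ≤ D →
        ∫ y in cube n 2, ev P y * h y = ∫ e, w e * seg P (a e) e ∂(surf n) := by
  have hfin := lam_fin (n := n)
  have hp0 : 0 < p := hpq.pos
  have hq0 : 0 < q := hpq.symm.pos
  have hq1 : 1 ≤ q := hpq.symm.lt.le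
  set K : ℝ≥0∞ := B ^ (1 / p) * eLpNorm w (ENNReal.ofReal q) (surf n) with hK
  have hKt : K ≠ ∞ := ENNReal.mul_ne_top (ENNReal.rpow_ne_top_of_nonneg (by positivity) hB) hw.2.ne
  have hKc : ((K.toNNReal : ℝ≥0) : ℝ≥0∞) = K := ENNReal.coe_toNNReal hKt
  have hcpt : IsCompact (cube n 2) := by
    refine Metric.isCompact_of_isClosed_isBounded (cube_closed n 2) ?_
    exact isBounded_closedBall.subset fun y hy => CP.norm_le_of y hy
  have hLp : ∀ P : MvPolynomial (Fin n) ℝ, MemLp (ev P) (ENNReal.ofReal p) (lam n) := fun P => by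
    obtain ⟨M, hM⟩ := hcpt.exists_bound_of_continuousOn (ev_cont P).continuousOn
    refine MemLp.of_bound (ev_cont P).aestronglyMeasurable M ?_
    exact (ae_restrict_mem (cube_meas n 2)).mono fun y hy => hM y hy
  have hpn : ENNReal.ofReal p ≠ 0 := (ENNReal.ofReal_pos.2 hp0).ne'
  have hqn : ENNReal.ofReal q ≠ 0 := (ENNReal.ofReal_pos.2 hq0).ne'
  obtain ⟨g, hg1, hg2, hg3⟩ := lp_rep (μ := lam n) hpq (evL n D) (fun v => hLp v)
    (momL n D hq1 hw ha hac) K.toNNReal (fun v => by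
      rw [hKc]
      have h1 : ENNReal.ofReal |momL n D hq1 hw ha hac v| ≤
          ∫⁻ e, ‖w e‖ₑ * smax (v : MvPolynomial (Fin n) ℝ) (e : E n) ∂(surf n) := by
        have h2 : ENNReal.ofReal |momL n D hq1 hw ha hac v| = ‖momL n D hq1 hw ha hac v‖ₑ := by
          rw [← ofReal_norm]; rfl
        rw [h2]
        refine (enorm_integral_le_lintegral_enorm _).trans (lintegral_mono fun e => ?_)
        rw [enorm_mul]
        exact mul_le_mul' le_rfl (seg_le (hac e) e)
      have h3 : ∫⁻ e, ‖w e‖ₑ * smax (v : MvPolynomial (Fin n) ℝ) (e : E n) ∂(surf n) ≤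
          (∫⁻ e, ‖w e‖ₑ ^ q ∂(surf n)) ^ (1 / q) *
          (∫⁻ e, smax (v : MvPolynomial (Fin n) ℝ) (e : E n) ^ p ∂(surf n)) ^ (1 / p) :=
        ENNReal.lintegral_mul_le_Lp_mul_Lq (surf n) hpq.symm hw.1.enorm
          ((smax_meas' _).comp measurable_subtype_coe).aemeasurable
      have h4 := h (v : MvPolynomial (Fin n) ℝ)
        ((MvPolynomial.mem_restrictTotalDegree _ _ _).1 v.2)
      have h5 : eLpNorm w (ENNReal.ofReal q) (surf n) = (∫⁻ e, ‖w e‖ₑ ^ q ∂(surf n)) ^ (1 / q) := by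
        rw [eLpNorm_eq_lintegral_rpow_enorm_toReal hqn ENNReal.ofReal_ne_top,
          ENNReal.toReal_ofReal hq0.le]
      have h6 : eLpNorm (evL n D v) (ENNReal.ofReal p) (lam n) =
          (∫⁻ y in cube n 2, ‖ev (v : MvPolynomial (Fin n) ℝ) y‖ₑ ^ p) ^ (1 / p) := by
        rw [eLpNorm_eq_lintegral_rpow_enorm_toReal hpn ENNReal.ofReal_ne_top,
          ENNReal.toReal_ofReal hp0.le]
        rfl
      refine (h1.trans h3).trans ?_
      rw [hK, h5, h6]
      calc (∫⁻ e, ‖w e‖ₑ ^ q ∂(surf n)) ^ (1 / q) *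
            (∫⁻ e, smax (v : MvPolynomial (Fin n) ℝ) (e : E n) ^ p ∂(surf n)) ^ (1 / p)
          ≤ (∫⁻ e, ‖w e‖ₑ ^ q ∂(surf n)) ^ (1 / q) *
            (B * ∫⁻ y in cube n 2, ‖ev (v : MvPolynomial (Fin n) ℝ) y‖ₑ ^ p) ^ (1 / p) := by
            gcongr
        _ = _ := by
            rw [ENNReal.mul_rpow_of_nonneg _ _ (by positivity)]
            ring)
  refine ⟨g, hg1, hg2.trans_eq hKc, fun P hP => ?_⟩
  exact hg3 ⟨P, (MvPolynomial.mem_restrictTotalDegree _ _ _).2 hP⟩

end Pool.Agent.H222.KM
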